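import Mathlib

set_option autoImplicit false

namespace Pool.Agent.Results.MP_80afb3_al.SL3

open Matrix Matrix.SpecialLinearGroup

/-- The Chabauty topology on the set of subgroups. -/
@[reducible] noncomputable def chabauty (Γ : Type) [Group Γ] : TopologicalSpace (Subgroup Γ) :=
  TopologicalSpace.induced (fun Δ : Subgroup Γ => (Δ : Set Γ).boolIndicator) Pi.topologicalSpace

/-- Boomerang subgroups. -/
def IsBoomerang {Γ : Type} [Group Γ] (Δ : Subgroup Γ) : Prop :=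
  ∀ γ : Γ, ∀ O ∈ @nhds _ (chabauty Γ) Δ, ∃ n : ℕ, 1 ≤ n ∧
    Δ.map (MulAut.conj (γ ^ n)).toMonoidHom ∈ O

theorem weak {Γ : Type} [Group Γ] {Δ : Subgroup Γ} (h : IsBoomerang Δ) (a : Γ) (ha : a ∈ Δ)
    (γ : Γ) : ∃ n : ℕ, 1 ≤ n ∧ γ ^ n * a * (γ ^ n)⁻¹ ∈ Δ := by
  obtain ⟨n, hn, h⟩ := h γ⁻¹ {D | a ∈ D} (by
    rw [nhds_induced]
    refine ⟨(fun f : Γ → Bool => f a) ⁻¹' {true},
      ((isOpen_discrete {true}).preimage (continuous_apply a)).mem_nhds
      ((Set.mem_iff_boolIndicator _ _).1 ha), fun D hD => (Set.mem_iff_boolIndicator _ _).2 hD⟩)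
  obtain ⟨b, hb, rfl⟩ := h
  refine ⟨n, hn, ?_⟩
  change γ ^ n * (γ⁻¹ ^ n * b * (γ⁻¹ ^ n)⁻¹) * (γ ^ n)⁻¹ ∈ Δ
  rwa [show γ ^ n * (γ⁻¹ ^ n * b * (γ⁻¹ ^ n)⁻¹) * (γ ^ n)⁻¹ = b by group]

abbrev G : Type := SpecialLinearGroup (Fin 3) ℚ
abbrev V : Type := Fin 3 → ℚ

def T (v f : V) (h : f ⬝ᵥ v = 0) : G := ⟨1 + vecMulVec v f, by
  rw [vecMulVec_eq Unit, det_one_add_replicateCol_mul_replicateRow, h, add_zero]⟩

theorem T_pow (v f : V) (h : f ⬝ᵥ v = 0) (n : ℕ) :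
    (T v f h ^ n).1 = 1 + (n : ℚ) • vecMulVec v f := by
  induction n with
  | zero => simp
  | succ n ih =>
    rw [pow_succ, coe_mul, ih]
    simp [T, mul_add, add_mul, vecMulVec_mul_vecMulVec, h, add_smul]
    abel

theorem T_inv (v f : V) (h : f ⬝ᵥ v = 0) (n : ℕ) :
    ((T v f h ^ n)⁻¹).1 = 1 - (n : ℚ) • vecMulVec v f := by
  have : (T v f h ^ n)⁻¹ = T (-v) f (by simp [h]) ^ n := by
    rw [← inv_pow]
    congr 1
    refine inv_eq_of_mul_eq_one_left (Subtype.ext ?_)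
    simp [T, mul_add, add_mul, vecMulVec_mul_vecMulVec, h]
  rw [this, T_pow]
  simp [sub_eq_add_neg]

theorem cancel (g : G) : g.1 * (g⁻¹).1 = 1 := by rw [← coe_mul, mul_inv_cancel, coe_one]
theorem cancel' (g : G) : (g⁻¹).1 * g.1 = 1 := by rw [← coe_mul, inv_mul_cancel, coe_one]

variable {D : Subgroup G}

def P (D : Subgroup G) (v f : V) : Prop :=
  ∃ c : ℚ, c ≠ 0 ∧ ∃ d ∈ D, d.1 = 1 + c • vecMulVec v f

section
variable (hD : ∀ a ∈ D, ∀ γ : G, ∃ n : ℕ, 1 ≤ n ∧ γ ^ n * a * (γ ^ n)⁻¹ ∈ D)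
include hD

theorem comm (g : G) (hg : g ∈ D) (v f : V) (h : f ⬝ᵥ v = 0) : ∃ c : ℚ, c ≠ 0 ∧ ∃ d ∈ D,
    d.1 = (1 + c • vecMulVec v f) * (1 - c • vecMulVec (g.1 *ᵥ v) (f ᵥ* (g⁻¹).1)) := by
  obtain ⟨n, hn, h1⟩ := hD g hg (T v f h)
  refine ⟨n, by positivity, _, D.mul_mem h1 (D.inv_mem hg), ?_⟩
  rw [coe_mul, coe_mul, coe_mul, T_pow, T_inv, mul_assoc, mul_assoc, sub_mul, mul_sub, one_mul,
    cancel, smul_mul_assoc, mul_smul_comm, vecMulVec_mul, mul_vecMulVec]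

theorem row (g : G) (hg : g ∈ D) (w f : V) (h : f ⬝ᵥ w = 0) (hf : f ᵥ* g.1 = f) :
    P D (w - g.1 *ᵥ w) f := by
  obtain ⟨c, hc, d, hd, e⟩ := comm hD g hg w f h
  have h1 : f ᵥ* (g⁻¹).1 = f := by
    conv_lhs => rw [← hf, vecMul_vecMul, cancel, vecMul_one]
  have h2 : f ⬝ᵥ g.1 *ᵥ w = 0 := by rw [dotProduct_mulVec, hf, h]
  refine ⟨c, hc, d, hd, ?_⟩
  rw [e, h1]
  simp [mul_sub, add_mul, vecMulVec_mul_vecMulVec, h2, sub_vecMulVec, smul_sub, add_sub_assoc]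

theorem col (g : G) (hg : g ∈ D) (w f : V) (h : f ⬝ᵥ w = 0) (hw : g.1 *ᵥ w = w) :
    P D w (f - f ᵥ* g.1) := by
  obtain ⟨c, hc, d, hd, e⟩ := comm hD g⁻¹ (D.inv_mem hg) w f h
  have h1 : (g⁻¹).1 *ᵥ w = w := by
    conv_lhs => rw [← hw, mulVec_mulVec, cancel', one_mulVec]
  refine ⟨c, hc, d, hd, ?_⟩
  rw [e, h1, inv_inv]
  simp [mul_sub, add_mul, vecMulVec_mul_vecMulVec, h, vecMulVec_sub, smul_sub, add_sub_assoc]

omit hD in
theorem sep (v w : V) (hv : v ≠ 0) (hw : w ≠ 0) :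
    (∃ s : ℚ, s ≠ 0 ∧ v = s • w) ∨ ∃ φ : V, φ ⬝ᵥ w = 0 ∧ φ ⬝ᵥ v ≠ 0 := by
  have h0 : w ⬝ᵥ w ≠ 0 := mt dotProduct_self_eq_zero.1 hw
  have h1 : ((w ⬝ᵥ w) • v - (w ⬝ᵥ v) • w) ⬝ᵥ w = 0 := by
    rw [sub_dotProduct, smul_dotProduct, smul_dotProduct, dotProduct_comm v w, smul_eq_mul,
      smul_eq_mul, mul_comm, sub_self]
  by_cases h : ((w ⬝ᵥ w) • v - (w ⬝ᵥ v) • w) ⬝ᵥ v = 0
  · have h2 : (w ⬝ᵥ w) • v - (w ⬝ᵥ v) • w = 0 := dotProduct_self_eq_zero.1 (by
      rw [dotProduct_sub, dotProduct_smul, dotProduct_smul, h, h1, smul_zero, smul_zero, sub_self])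
    have h3 : v = ((w ⬝ᵥ w)⁻¹ * (w ⬝ᵥ v)) • w := by
      rw [mul_smul, ← sub_eq_zero.1 h2, smul_smul, inv_mul_cancel₀ h0, one_smul]
    exact Or.inl ⟨_, fun e => hv (by rw [h3, e, zero_smul]), h3⟩
  · exact Or.inr ⟨_, h1, h⟩

theorem moveV (v w f : V) (hv : v ≠ 0) (hw : w ≠ 0) (h : f ⬝ᵥ w = 0) (hP : P D v f) :
    P D w f := by
  obtain ⟨c, hc, d, hd, e⟩ := hP
  rcases sep v w hv hw with ⟨s, hs, rfl⟩ | ⟨φ, h1, h2⟩
  · exact ⟨c * s, mul_ne_zero hc hs, d, hd, by rw [e, smul_vecMulVec, smul_smul]⟩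
  · obtain ⟨c', hc', d', hd', e'⟩ := col hD d hd w φ h1 (by
      simp [e, add_mulVec, smul_mulVec, vecMulVec_mulVec, h])
    refine ⟨-(c' * (c * (φ ⬝ᵥ v))), by simp [*], d', hd', ?_⟩
    rw [e', e]
    simp [vecMul_add, vecMul_smul, vecMul_vecMulVec, smul_smul]

theorem moveF (v f φ : V) (hf : f ≠ 0) (hφ : φ ≠ 0) (h : φ ⬝ᵥ v = 0) (hP : P D v f) :
    P D v φ := by
  obtain ⟨c, hc, d, hd, e⟩ := hP
  rcases sep f φ hf hφ with ⟨s, hs, rfl⟩ | ⟨w, h1, h2⟩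
  · exact ⟨c * s, mul_ne_zero hc hs, d, hd, by rw [e, vecMulVec_smul, smul_smul]⟩
  · rw [dotProduct_comm] at h1 h2
    obtain ⟨c', hc', d', hd', e'⟩ := row hD d hd w φ h1 (by
      simp [e, vecMul_add, vecMul_smul, vecMul_vecMulVec, h])
    refine ⟨-(c' * (c * (f ⬝ᵥ w))), by simp [*], d', hd', ?_⟩
    rw [e', e]
    simp [add_mulVec, smul_mulVec, vecMulVec_mulVec, smul_smul]

omit hD in
theorem nonscalar (g : G) (h : ∀ v : V, crossProduct v (g.1 *ᵥ v) = 0) : g = 1 := by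
  have a := h ![1, 0, 0]
  have b := h ![0, 1, 0]
  have c := h ![0, 0, 1]
  have d := h ![1, 1, 0]
  have e := h ![0, 1, 1]
  have hd := g.2
  simp [cross_apply, mulVec, dotProduct, Fin.sum_univ_three] at a b c d e
  have e1 : g.1 1 1 = g.1 0 0 := by linarith [d.2.2, a.2, b.2]
  have e2 : g.1 2 2 = g.1 0 0 := by linarith [e.1, b.1, c.1]
  rw [det_fin_three] at hd
  simp only [a.1, a.2, b.1, b.2, c.1, c.2, e1, e2] at hd
  have e0 : g.1 0 0 = 1 := (Odd.pow_inj (n := 3) (by decide)).1 (by linarith)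
  refine Subtype.ext ?_
  ext i j
  fin_cases i <;> fin_cases j <;> simp [a.1, a.2, b.1, b.2, c.1, c.2, e1, e2, e0]

theorem first (h : D ≠ ⊥) : ∃ v f : V, v ≠ 0 ∧ f ≠ 0 ∧ P D v f := by
  obtain ⟨⟨g, hg⟩, hg1⟩ := Subgroup.ne_bot_iff_exists_ne_one.1 h
  obtain ⟨v, hv⟩ := not_forall.1 (mt (nonscalar g) fun e => hg1 (Subtype.ext e))
  have h1 := dot_self_cross v (g.1 *ᵥ v)
  have h2 := dot_cross_self v (g.1 *ᵥ v)
  set f := crossProduct v (g.1 *ᵥ v) with hf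
  rw [dotProduct_comm] at h1 h2
  have hff : f ⬝ᵥ f ≠ 0 := mt dotProduct_self_eq_zero.1 hv
  obtain ⟨c, hc, d, hd, e⟩ := comm hD g hg v f h1
  have e' : d.1 = 1 + c • vecMulVec v f - c • vecMulVec (g.1 *ᵥ v) (f ᵥ* (g⁻¹).1) := by
    rw [e]
    simp [mul_sub, add_mul, vecMulVec_mul_vecMulVec, h2]
  have hfd : f ᵥ* d.1 = f := by
    simp [e', vecMul_add, vecMul_sub, vecMul_smul, vecMul_vecMulVec, h1, h2]
  have hd1 : d.1 ≠ 1 := by
    intro h0
    rw [h0, add_sub_assoc, left_eq_add, sub_eq_zero] at e'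
    have := congrArg (fun M => crossProduct (M *ᵥ f) (g.1 *ᵥ v)) (smul_right_injective _ hc e')
    simp [vecMulVec_mulVec, ← hf, hff] at this
    exact hv this
  by_cases hw : ∀ w : V, f ⬝ᵥ w = 0 → d.1 *ᵥ w = w
  · have key : d.1 = 1 + (f ⬝ᵥ f)⁻¹ • vecMulVec (d.1 *ᵥ f - f) f := by
      refine ext_of_mulVec_single fun j => ?_
      generalize (Pi.single j 1 : V) = x
      have := hw (x - ((f ⬝ᵥ f)⁻¹ * (f ⬝ᵥ x)) • f) (by
        rw [dotProduct_sub, dotProduct_smul, smul_eq_mul]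
        field_simp
        ring)
      rw [mulVec_sub, mulVec_smul, sub_eq_iff_eq_add] at this
      rw [this]
      simp [add_mulVec, smul_mulVec, vecMulVec_mulVec, smul_smul, smul_sub]
      abel
    exact ⟨_, f, fun h0 => hd1 (by rw [key, h0]; simp), hv, _, inv_ne_zero hff, d, hd, key⟩
  · push Not at hw
    obtain ⟨w, h3, h4⟩ := hw
    exact ⟨_, f, sub_ne_zero.2 h4.symm, hv, row hD d hd w f h3 hfd⟩

theorem elem (h : D ≠ ⊥) (i j : Fin 3) (hij : i ≠ j) (x : ℚ) : transvection hij x ∈ D := by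
  obtain ⟨v, f, hv, hf, hP⟩ := first hD h
  have hi : (Pi.single i 1 : V) ≠ 0 := by simp
  have hj : (Pi.single j 1 : V) ≠ 0 := by simp
  have hji : (Pi.single j 1 : V) ⬝ᵥ Pi.single i 1 = 0 := by simp [hij.symm]
  obtain ⟨w, hw, h1, h2⟩ : ∃ w : V, w ≠ 0 ∧ f ⬝ᵥ w = 0 ∧ Pi.single j 1 ⬝ᵥ w = 0 := by
    by_cases h0 : crossProduct f (Pi.single j 1) = 0
    · rw [← not_ne_iff, crossProduct_ne_zero_iff_linearIndependent,
        LinearIndependent.pair_iff' hf] at h0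
      push Not at h0
      obtain ⟨a, ha⟩ := h0
      have ha0 : a ≠ 0 := fun e => hj (by rw [← ha, e, zero_smul])
      refine ⟨_, hi, ?_, hji⟩
      rw [← ha, smul_dotProduct, smul_eq_mul] at hji
      exact (mul_eq_zero.1 hji).resolve_left ha0
    · exact ⟨_, h0, dot_self_cross _ _, dot_cross_self _ _⟩
  obtain ⟨c, hc, d, hd, e⟩ := moveV hD w _ _ hw hi hji
    (moveF hD w f _ hf hj h2 (moveV hD v w f hv hw h1 hP))
  have e1 : d = transvection hij c := Subtype.ext (by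
    rw [e, transvection_coe, ← single_eq_single_vecMulVec_single]
    simp)
  subst e1
  have hz : ∀ (y : ℚ) (k : ℤ), transvection hij y ∈ D → transvection hij (k * y) ∈ D := by
    intro y k hy
    induction k using Int.induction_on with
    | zero => simp
    | succ k ih =>
      rw [Int.cast_add, add_mul, Int.cast_one, one_mul, transvection_add]
      exact D.mul_mem ih hy
    | pred k ih =>
      rw [Int.cast_sub, sub_mul, Int.cast_one, one_mul, sub_eq_add_neg, transvection_add,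
        ← transvection_inv]
      exact D.mul_mem ih (D.inv_mem hy)
  have hm : ((x / c).den : ℚ) ≠ 0 := by positivity
  obtain ⟨n, hn, h3⟩ := hD _ hd (diag2n hij _ (inv_ne_zero hm))
  have conj : ∀ (a : ℚ) (ha : a ≠ 0) (n : ℕ), diag2n hij a ha ^ n * transvection hij c *
      (diag2n hij a ha ^ n)⁻¹ = transvection hij (a ^ (2 * n) * c) := by
    intro a ha n
    induction n with
    | zero => simp
    | succ n ih =>
      rw [pow_succ', _root_.mul_inv_rev, mul_assoc, mul_assoc, ← mul_assoc (transvection hij c),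
        ← mul_assoc (_ ^ n), ← mul_assoc (_ ^ n), ih, ← mul_assoc, mul_inv_eq_iff_eq_mul]
      refine Subtype.ext ?_
      rw [coe_mul, coe_mul, diag2n_coe, transvection_coe, transvection_coe]
      ext k l
      simp only [diagonal_mul, mul_diagonal, Matrix.add_apply, Matrix.one_apply,
        Matrix.single_apply]
      by_cases h1 : i = k ∧ j = l
      · obtain ⟨rfl, rfl⟩ := h1
        simp [hij, hij.symm]
        field_simp
        ring
      · rw [if_neg h1, if_neg h1]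
        by_cases h2 : k = l <;> simp [h2]
  rw [conj] at h3
  convert hz _ ((x / c).num * (x / c).den ^ (2 * n - 1)) h3 using 2
  obtain ⟨m, hm'⟩ : ∃ m, 2 * n = m + 1 := ⟨2 * n - 1, by omega⟩
  have := Rat.num_div_den (x / c)
  rw [hm']
  push_cast [Nat.add_sub_cancel]
  generalize ((x / c).den : ℚ) = q at this hm
  generalize ((x / c).num : ℚ) = r at this
  rw [inv_pow]
  field_simp at this ⊢
  linear_combination (-q ^ m) * this

theorem top (h : D ≠ ⊥) : D = ⊤ := by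
  refine eq_top_iff.2 fun g _ => diagonal_transvection_induction' (· ∈ D) g
    (fun i j hij c hc => ?_) (elem hD h) fun _ _ => D.mul_mem
  have : diag2n hij c hc = transvection hij c * transvection hij.symm (-c⁻¹) * transvection hij c *
      transvection hij (-1) * transvection hij.symm 1 * transvection hij (-1) := by
    refine Subtype.ext ?_
    simp only [coe_mul, diag2n_coe, transvection_coe]
    ext k l
    fin_cases i <;> fin_cases j <;> first | exact absurd rfl hij | (fin_cases k <;> fin_cases l <;>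
      simp [mul_add, add_mul, mul_inv_cancel₀ hc, inv_mul_cancel₀ hc])
  rw [this]
  exact D.mul_mem (D.mul_mem (D.mul_mem (D.mul_mem (D.mul_mem (elem hD h _ _ _ _)
    (elem hD h _ _ _ _)) (elem hD h _ _ _ _)) (elem hD h _ _ _ _)) (elem hD h _ _ _ _))
    (elem hD h _ _ _ _)

end

theorem result : Infinite (SpecialLinearGroup (Fin 3) ℚ) ∧ Countable (SpecialLinearGroup (Fin 3) ℚ) ∧
    ∀ Δ : Subgroup (SpecialLinearGroup (Fin 3) ℚ), IsBoomerang Δ ↔ Δ = ⊥ ∨ Δ = ⊤ := by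
  refine ⟨Infinite.of_injective (transvection (zero_ne_one (α := Fin 3))) fun x y h => ?_,
    inferInstanceAs (Countable {A : Fin 3 → Fin 3 → ℚ // Matrix.det A = 1}), fun Δ =>
    ⟨fun h => or_iff_not_imp_left.2 (top (weak h)), fun h γ O hO => ⟨1, le_rfl, ?_⟩⟩⟩
  · simpa [transvection_coe] using congrArg (fun g : G => g.1 0 1) h
  · convert @mem_of_mem_nhds _ (chabauty _) _ _ hO
    rcases h with rfl | rfl
    · simp
    · exact Subgroup.map_top_of_surjective _ (MulAut.conj _).surjective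

end Pool.Agent.Results.MP_80afb3_al.SL3
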